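import Pool.Agent.Q276.HL.Stm

/-! The lemma NZ4 of `Pool.Agent.Q276.HL.Stm`: the first coefficient is not zero for nonsingular
curves. -/

set_option autoImplicit false

namespace Pool.Agent.Q18.HL

open Pool.Agent.Q276.HL

/-- The integer part of the argument. -/
theorem int_part (x y A B u : ℤ) (hc : y ^ 2 = x ^ 3 + A * x + B)
    (h0 : qA A x y u 1 = 0) (hu : |3 * (u ^ 2 - x) ^ 2 + 4 * A| < u) :
    4 * A ^ 3 + 27 * B ^ 2 = 0 := by
  obtain ⟨m, hm⟩ : ∃ m, m = u ^ 2 - x := ⟨_, rfl⟩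
  have hx : x = u ^ 2 - m := by linarith
  have hupos : 0 < u := lt_of_le_of_lt (abs_nonneg _) hu
  unfold qA at h0
  subst hx
  have h1 : 8 * y * u = 8 * u ^ 4 - 12 * m * u ^ 2 + (3 * m ^ 2 + 4 * A) := by
    linear_combination h0
  have hdvd : u ∣ 3 * m ^ 2 + 4 * A :=
    ⟨8 * y - 8 * u ^ 3 + 12 * m * u, by linear_combination (-1 : ℤ) * h1⟩
  have hsm : |3 * m ^ 2 + 4 * A| < u := by
    have e : (3 * (u ^ 2 - (u ^ 2 - m)) ^ 2 + 4 * A) = 3 * m ^ 2 + 4 * A := by ring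
    rwa [e] at hu
  have hz : 3 * m ^ 2 + 4 * A = 0 := Int.eq_zero_of_abs_lt_dvd hdvd hsm
  have h2 : 2 * y = 2 * u ^ 3 - 3 * m * u := by
    have h3 : (4 * u) * (2 * y) = (4 * u) * (2 * u ^ 3 - 3 * m * u) := by
      linear_combination h1 + hz
    exact mul_left_cancel₀ (by positivity) h3
  have h4 : 4 * B = m ^ 3 := by
    linear_combination (-4 : ℤ) * hc + (2 * y + (2 * u ^ 3 - 3 * m * u)) * h2
      - (u ^ 2 - m) * hz
  have h5 : 16 * (4 * A ^ 3 + 27 * B ^ 2) = 0 := by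
    linear_combination 27 * (4 * B + m ^ 3) * h4
      + (16 * A ^ 2 - 12 * A * m ^ 2 + 9 * m ^ 4) * hz
  omega

/-- The real part of the argument. -/
theorem real_part (R α : ℝ) (hR : 20 ≤ R) (hα : 0 < α) (hαR : 100 * R ^ 6 ≤ α ^ 2)
    (y A B w : ℝ) (hy : 0 ≤ y) (hc : y ^ 2 = (α ^ 2) ^ 3 + A * α ^ 2 + B)
    (hA : |A| ≤ R ^ 2) (hB : |B| ≤ R ^ 3) (hw : |w| ≤ 1)
    (h0 : w ^ 4 + 4 * α * w ^ 3 + 8 * (y - α ^ 3) * w + (8 * α * (y - α ^ 3) - 4 * A) = 0) :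
    |w| * α ≤ 3 * R := by
  have hR0 : 0 < R := by linarith
  have hα10 : 10 * R ^ 3 ≤ α := by
    by_contra hcon
    push Not at hcon
    have : α ^ 2 < (10 * R ^ 3) ^ 2 := by
      apply pow_lt_pow_left₀ hcon hα.le (by norm_num)
    nlinarith
  have hR3 : 1 ≤ R ^ 3 := by
    have : (1 : ℝ) ^ 3 ≤ R ^ 3 := pow_le_pow_left₀ (by norm_num) (by linarith) 3
    linarith
  have hα1 : 10 ≤ α := by linarith
  have hRα : R ≤ α := by
    have : R * 1 ≤ R ^ 3 := by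
      have h2 : (1 : ℝ) ≤ R ^ 2 := by nlinarith
      calc R * 1 ≤ R * R ^ 2 := by gcongr
        _ = R ^ 3 := by ring
    nlinarith
  obtain ⟨δ, hδ⟩ : ∃ δ, δ = y - α ^ 3 := ⟨_, rfl⟩
  rw [← hδ] at h0
  have hprod : δ * (y + α ^ 3) = A * α ^ 2 + B := by
    rw [hδ]; linear_combination hc
  have hα3 : 0 < α ^ 3 := by positivity
  have hy3 : α ^ 3 ≤ y + α ^ 3 := by linarith
  have hy3' : 0 < y + α ^ 3 := by linarith
  -- bound of δ
  have hd1 : |δ| * α ≤ 2 * R ^ 2 := by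
    have e1 : |δ| * α ^ 3 ≤ 2 * R ^ 2 * α ^ 2 := by
      calc |δ| * α ^ 3 ≤ |δ| * (y + α ^ 3) := by gcongr
        _ = |A * α ^ 2 + B| := by rw [← hprod, abs_mul, abs_of_pos hy3']
        _ ≤ |A * α ^ 2| + |B| := abs_add_le _ _
        _ = |A| * α ^ 2 + |B| := by rw [abs_mul, abs_of_pos (by positivity : 0 < α ^ 2)]
        _ ≤ R ^ 2 * α ^ 2 + R ^ 3 := by gcongr
        _ ≤ R ^ 2 * α ^ 2 + R ^ 2 * α ^ 2 := by
            have : R ≤ α ^ 2 := by nlinarith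
            have h2 : R ^ 2 * R ≤ R ^ 2 * α ^ 2 := by gcongr
            nlinarith
        _ = 2 * R ^ 2 * α ^ 2 := by ring
    have e2 : (|δ| * α) * α ^ 2 ≤ (2 * R ^ 2) * α ^ 2 := by
      calc (|δ| * α) * α ^ 2 = |δ| * α ^ 3 := by ring
        _ ≤ _ := e1
    exact le_of_mul_le_mul_right e2 (by positivity)
  obtain ⟨E, hE⟩ : ∃ E, E = 8 * α * δ - 4 * A := ⟨_, rfl⟩
  rw [← hE] at h0
  have hprod2 : E * (y + α ^ 3) = -(4 * A * δ) + 8 * α * B := by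
    rw [hE]
    have : y + α ^ 3 = δ + 2 * α ^ 3 := by rw [hδ]; ring
    have h3 : δ * (y + α ^ 3) = A * α ^ 2 + B := hprod
    have h4 : (8 * α * δ - 4 * A) * (y + α ^ 3) =
      8 * α * (δ * (y + α ^ 3)) - 4 * A * (y + α ^ 3) := by ring
    rw [h4, h3, this]
    ring
  have hd2 : |δ| ≤ 2 * R ^ 2 := by
    calc |δ| = |δ| * 1 := by ring
      _ ≤ |δ| * α := by gcongr; linarith
      _ ≤ _ := hd1
  have hE1 : |E| * α ^ 2 ≤ 16 * R ^ 3 := by
    have e1 : |E| * α ^ 3 ≤ 16 * R ^ 3 * α := by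
      calc |E| * α ^ 3 ≤ |E| * (y + α ^ 3) := by gcongr
        _ = |-(4 * A * δ) + 8 * α * B| := by rw [← hprod2, abs_mul, abs_of_pos hy3']
        _ ≤ |-(4 * A * δ)| + |8 * α * B| := abs_add_le _ _
        _ = 4 * (|A| * |δ|) + 8 * α * |B| := by
            rw [abs_neg, abs_mul, abs_mul, abs_mul, abs_mul, abs_of_pos hα]
            norm_num
            ring
        _ ≤ 4 * (R ^ 2 * (2 * R ^ 2)) + 8 * α * R ^ 3 := by gcongr
        _ ≤ 8 * R ^ 3 * α + 8 * α * R ^ 3 := by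
            have : R ^ 3 * R ≤ R ^ 3 * α := by gcongr
            nlinarith
        _ = 16 * R ^ 3 * α := by ring
    have e2 : (|E| * α ^ 2) * α ≤ (16 * R ^ 3) * α := by
      calc (|E| * α ^ 2) * α = |E| * α ^ 3 := by ring
        _ ≤ _ := e1
    exact le_of_mul_le_mul_right e2 hα
  -- the cubic inequality
  have hw0 : 0 ≤ |w| := abs_nonneg w
  have hcub : 3 * α * |w| ^ 3 ≤ 8 * |δ| * |w| + |E| := by
    have e1 : 4 * α * w ^ 3 = -(w ^ 4 + (8 * δ * w + E)) := by linear_combination h0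
    have e2 : 4 * α * |w| ^ 3 ≤ |w| ^ 4 + (8 * |δ| * |w| + |E|) := by
      calc 4 * α * |w| ^ 3 = |4 * α * w ^ 3| := by
            rw [abs_mul, abs_pow, abs_of_pos (by positivity : 0 < 4 * α)]
        _ = |w ^ 4 + (8 * δ * w + E)| := by rw [e1, abs_neg]
        _ ≤ |w ^ 4| + |8 * δ * w + E| := abs_add_le _ _
        _ ≤ |w ^ 4| + (|8 * δ * w| + |E|) := by gcongr; exact abs_add_le _ _
        _ = |w| ^ 4 + (8 * |δ| * |w| + |E|) := by
            rw [abs_pow, abs_mul, abs_mul]; norm_num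
    have e3 : |w| ^ 4 ≤ α * |w| ^ 3 := by
      calc |w| ^ 4 = |w| * |w| ^ 3 := by ring
        _ ≤ α * |w| ^ 3 := by gcongr; linarith
    linarith
  obtain ⟨Z, hZ⟩ : ∃ Z, Z = |w| * α := ⟨_, rfl⟩
  rw [← hZ]
  have hZ0 : 0 ≤ Z := by rw [hZ]; positivity
  have hcub2 : 3 * Z ^ 3 ≤ 16 * R ^ 2 * Z + 16 * R ^ 3 := by
    calc 3 * Z ^ 3 = (3 * α * |w| ^ 3) * α ^ 2 := by rw [hZ]; ring
      _ ≤ (8 * |δ| * |w| + |E|) * α ^ 2 := by gcongr
      _ = 8 * (|δ| * α) * (|w| * α) + |E| * α ^ 2 := by ring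
      _ ≤ 8 * (2 * R ^ 2) * (|w| * α) + 16 * R ^ 3 := by gcongr
      _ = 16 * R ^ 2 * Z + 16 * R ^ 3 := by rw [hZ]; ring
  by_contra hcon
  push Not at hcon
  have hZpos : 0 < Z := by linarith
  have f1 : 9 * R ^ 2 < Z ^ 2 := by nlinarith
  have f2 : 9 * R ^ 2 * Z < Z ^ 2 * Z := by
    exact mul_lt_mul_of_pos_right f1 hZpos
  have f3 : R ^ 2 * (3 * R) < R ^ 2 * Z := by
    exact mul_lt_mul_of_pos_left hcon (by positivity)
  nlinarith [pow_pos hR0 3]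

theorem nz4 : StmtNZ4 := by
  intro R α V hR hα hV hV1 x y A B u v hx hy hc hA hB hD h100 hcop hv huv h0
  -- v = 1
  have hdvd : v ∣ u ^ 4 := by
    unfold qA at h0
    exact ⟨6 * x * u ^ 2 * v - 8 * y * u * v ^ 2 + (4 * A + 3 * x ^ 2) * v ^ 3, by
      linear_combination h0⟩
  have hunit : IsUnit v := by
    have h1 : IsCoprime (u ^ 4) v := hcop.pow_left
    exact h1.symm.isUnit_of_dvd' dvd_rfl hdvd
  have hv1 : v = 1 := by
    rcases Int.isUnit_iff.mp hunit with h | h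
    · exact h
    · omega
  subst hv1
  -- reals
  obtain ⟨w, hw⟩ : ∃ w, w = (u : ℝ) - α := ⟨_, rfl⟩
  have hw' : (u : ℝ) = α + w := by rw [hw]; ring
  have hw1 : |w| ≤ 1 := by
    have e : (u : ℝ) - α * ((1 : ℤ) : ℝ) = w := by rw [hw]; push_cast; ring
    rw [e] at huv
    calc |w| = |w| * 1 := by ring
      _ ≤ |w| * V := by gcongr
      _ ≤ 1 := huv
  have h100' : 100 * R ^ 6 ≤ α ^ 2 := by rw [hx]; exact h100
  have hcR : (y : ℝ) ^ 2 = (α ^ 2) ^ 3 + A * α ^ 2 + B := by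
    rw [hx]
    exact_mod_cast hc
  have h0R : (u : ℝ) ^ 4 - 6 * α ^ 2 * u ^ 2 + 8 * y * u - (4 * A + 3 * (α ^ 2) ^ 2) = 0 := by
    rw [hx]
    unfold qA at h0
    have h0' : u ^ 4 - 6 * x * u ^ 2 + 8 * y * u - (4 * A + 3 * x ^ 2) = 0 := by
      linear_combination h0
    exact_mod_cast h0'
  have hquart : w ^ 4 + 4 * α * w ^ 3 + 8 * ((y : ℝ) - α ^ 3) * w +
      (8 * α * ((y : ℝ) - α ^ 3) - 4 * A) = 0 := by
    rw [hw'] at h0R
    linear_combination h0R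
  have hZ : |w| * α ≤ 3 * R :=
    real_part R α hR hα h100' y A B w (by exact_mod_cast hy) hcR hA hB hw1 hquart
  have hR0 : 0 < R := by linarith
  have hα10 : 10 * R ^ 3 ≤ α := by
    by_contra hcon
    push Not at hcon
    have : α ^ 2 < (10 * R ^ 3) ^ 2 := by
      apply pow_lt_pow_left₀ hcon hα.le (by norm_num)
    nlinarith
  -- m
  have hm : |(u : ℝ) ^ 2 - x| ≤ 7 * R := by
    rw [← hx, hw']
    have e : (α + w) ^ 2 - α ^ 2 = 2 * (w * α) + w ^ 2 := by ring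
    rw [e]
    calc |2 * (w * α) + w ^ 2| ≤ |2 * (w * α)| + |w ^ 2| := abs_add_le _ _
      _ = 2 * (|w| * α) + |w| ^ 2 := by
          rw [abs_mul, abs_mul, abs_pow, abs_of_pos hα]; norm_num
      _ ≤ 2 * (3 * R) + 1 ^ 2 := by gcongr
      _ ≤ 7 * R := by linarith
  have hbound : |3 * (u ^ 2 - x) ^ 2 + 4 * A| < u := by
    have hr : |3 * ((u : ℝ) ^ 2 - x) ^ 2 + 4 * A| < (u : ℝ) := by
      calc |3 * ((u : ℝ) ^ 2 - x) ^ 2 + 4 * A|
          ≤ |3 * ((u : ℝ) ^ 2 - x) ^ 2| + |4 * (A : ℝ)| := abs_add_le _ _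
        _ = 3 * |(u : ℝ) ^ 2 - x| ^ 2 + 4 * |(A : ℝ)| := by
            rw [abs_mul, abs_mul, abs_pow]; norm_num
        _ ≤ 3 * (7 * R) ^ 2 + 4 * R ^ 2 := by gcongr
        _ = 151 * R ^ 2 := by ring
        _ < 200 * R ^ 2 - 1 := by nlinarith
        _ ≤ 10 * R ^ 3 - 1 := by nlinarith [mul_nonneg (sq_nonneg R) (by linarith : 0 ≤ R - 20)]
        _ ≤ α - 1 := by linarith
        _ ≤ u := by
            rw [hw']
            have := (abs_le.mp hw1).1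
            linarith
    exact_mod_cast hr
  exact hD (int_part x y A B u hc h0 hbound)

end Pool.Agent.Q18.HL
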